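import Pool.Agent.Helper55.RL.Spec

/-!
# BZP: multiples of `z` by powers of order `p` without common zeros
-/

set_option autoImplicit false
set_option linter.all false

open FF Polynomial

namespace Pool.Agent.Helper56.RL.BZP

open Pool.Agent.Helper55.RG Pool.Agent.Helper55.RL Module

section

variable {κ N : Type} [Field κ] [IsAlgClosed κ] [CharZero κ] [Field N] [Algebra κ N] [IsFF κ N]

theorem alg_bij (P : Place κ N) : Function.Bijective (algebraMap κ P.RF) :=
  IsAlgClosed.algebraMap_bijective_of_isIntegral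

theorem deg_one (P : Place κ N) : P.deg = 1 := by
  unfold Place.deg
  have e : κ ≃ₗ[κ] P.RF := LinearEquiv.ofBijective (Algebra.linearMap κ P.RF) (alg_bij P)
  rw [← e.finrank_eq, finrank_self]

theorem reg_sub (P : Place κ N) {x y : N} (hx : P.Reg x) (hy : P.Reg y) : P.Reg (x - y) := by
  rw [sub_eq_add_neg]; exact P.reg_add hx (P.reg_neg hy)

theorem val (P : Place κ N) {x : N} (hx : P.Reg x) :
    ∃ c : κ, x = algebraMap κ N c ∨ 0 < P.ord (x - algebraMap κ N c) := by
  obtain ⟨c, hc⟩ := (alg_bij P).2 (P.red x)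
  refine ⟨c, ?_⟩
  rw [P.algebraMap_RF] at hc
  have h := P.red_sub hx (P.reg_const c)
  rw [hc, sub_self, P.red_eq_zero_iff (reg_sub P hx (P.reg_const c))] at h
  rcases h with h | h
  · left; exact sub_eq_zero.1 h
  · right; exact h

theorem reg_aeval (P : Place κ N) {t : N} (ht : P.Reg t) (q : κ[X]) : P.Reg (aeval t q) := by
  induction q using Polynomial.induction_on' with
  | add p q hp hq => rw [map_add]; exact P.reg_add hp hq
  | monomial n c =>
    rw [aeval_monomial]
    apply P.reg_mul (P.reg_const c)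
    induction n with
    | zero => rw [pow_zero]; exact P.reg_one
    | succ n ih => rw [pow_succ]; exact P.reg_mul ih ht

theorem trans_sub_ne {t : N} (ht : Transcendental κ t) (a : κ) : t - algebraMap κ N a ≠ 0 := by
  intro h
  apply ht
  rw [sub_eq_zero.1 h]
  exact isAlgebraic_algebraMap a

theorem aeval_ne {t : N} (ht : Transcendental κ t) {s : κ[X]} (hs : s ≠ 0) : aeval t s ≠ 0 := by
  intro h
  exact ht ⟨s, hs, h⟩

theorem reg_of_pos (P : Place κ N) {t : N} {a : κ} (h : 0 < P.ord (t - algebraMap κ N a)) :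
    P.Reg t := by
  have h1 : P.Reg (t - algebraMap κ N a) := Or.inr h.le
  have h2 := P.reg_add h1 (P.reg_const a)
  rwa [sub_add_cancel] at h2

theorem ord_s_pos (P : Place κ N) {t : N} (ht : Transcendental κ t) {a : κ}
    (h : 0 < P.ord (t - algebraMap κ N a)) {s : κ[X]} (hs : s ≠ 0) (hsa : s.eval a = 0) :
    0 < P.ord (aeval t s) := by
  obtain ⟨q, rfl⟩ := dvd_iff_isRoot.2 (show s.IsRoot a from hsa)
  have hq : q ≠ 0 := right_ne_zero_of_mul hs
  have hq0 : aeval t q ≠ 0 := aeval_ne ht hq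
  have e : aeval t (X - C a) = t - algebraMap κ N a := by simp
  rw [map_mul, e, P.ord_mul (trans_sub_ne ht a) hq0]
  have := (P.reg_iff hq0).1 (reg_aeval P (reg_of_pos P h) q)
  omega

/-- the divisor divided by `p` -/
noncomputable def hd (p : ℕ) (z : N) : Place κ N →₀ ℤ :=
  (divisor κ z).mapRange (fun n => n / (p : ℤ)) (by simp)

theorem hd_apply (p : ℕ) (z : N) (P : Place κ N) : hd p z P = P.ord z / (p : ℤ) := by
  unfold hd; rw [Finsupp.mapRange_apply, divisor_apply]

theorem hd_deg {p : ℕ} (hp : 0 < p) {t : N} (ht : Transcendental κ t) {s : κ[X]} (hs : s ≠ 0)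
    {z : N} (hz : z ≠ 0) (h : DivOff p t s z) :
    - (ddeg (polar (k := κ) (aeval t s)⁻¹) + ddeg (polar (k := κ) t)) ≤
      ddeg (hd (κ := κ) p z) := by
  have hp' : (0 : ℤ) < p := by exact_mod_cast hp
  have h1 : divisor κ z ≤ p • (hd (κ := κ) p z +
      (polar (k := κ) (aeval t s)⁻¹ + polar (k := κ) t)) := by
    intro P
    simp only [Finsupp.smul_apply, Finsupp.add_apply, hd_apply, divisor_apply, polar_apply,
      P.ord_inv, nsmul_eq_mul]
    have h3 : (0 : ℤ) ≤ max (- -P.ord (aeval t s)) 0 := le_max_right _ _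
    have h4 : (0 : ℤ) ≤ max (-P.ord t) 0 := le_max_right _ _
    by_cases he : (p : ℤ) ∣ P.ord z
    · obtain ⟨r, hr⟩ := he
      rw [hr, Int.mul_ediv_cancel_left _ hp'.ne']
      have h5 : (0 : ℤ) ≤ p * (max (- -P.ord (aeval t s)) 0 + max (-P.ord t) 0) :=
        mul_nonneg hp'.le (by omega)
      rw [mul_add (p : ℤ) r]
      omega
    · have h2 : 1 ≤ max (- -P.ord (aeval t s)) 0 + max (-P.ord t) 0 := by
        by_cases hr : P.Reg t
        · obtain ⟨a, ha⟩ := val P hr
          have ha' : 0 < P.ord (t - algebraMap κ N a) := by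
            rcases ha with ha | ha
            · exact absurd (sub_eq_zero.2 ha) (trans_sub_ne ht a)
            · exact ha
          have hsa : s.eval a = 0 := by
            by_contra hc
            exact he (h P a ha' hc)
          have h5 := ord_s_pos P ht ha' hs hsa
          have h6 : - -P.ord (aeval t s) ≤ max (- -P.ord (aeval t s)) 0 := le_max_left _ _
          omega
        · have h5 : P.ord t < 0 := by
            by_contra hc
            exact hr (Or.inr (not_lt.1 hc))
          have h6 : -P.ord t ≤ max (-P.ord t) 0 := le_max_left _ _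
          omega
      have h7 := Int.emod_add_mul_ediv (P.ord z) p
      have h8 := Int.emod_lt_of_pos (P.ord z) hp'
      have h9 : (p : ℤ) * 1 ≤ p * (max (- -P.ord (aeval t s)) 0 + max (-P.ord t) 0) :=
        mul_le_mul_of_nonneg_left h2 hp'.le
      rw [mul_add (p : ℤ) (P.ord z / p)]
      omega
  have h2 := ddeg_mono h1
  rw [ddeg_divisor, ddeg_nsmul, ddeg_add, ddeg_add] at h2
  have h3 : (p : ℤ) * 0 ≤ p * (ddeg (hd (κ := κ) p z) +
      (ddeg (polar (k := κ) (aeval t s)⁻¹) + ddeg (polar (k := κ) t))) := by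
    rw [mul_zero]; exact h2
  have h4 := le_of_mul_le_mul_left h3 hp'
  omega

theorem mem_of {p : ℕ} (hp : 0 < p) {z x y : N} {n a b : ℕ} {t : N} (hab : a + b = p)
    (hz : z ≠ 0) (hx : x ≠ 0) (hy : y ≠ 0)
    (h1 : x ∈ LL (hd (κ := κ) p z + n • polar (k := κ) t))
    (h2 : y ∈ LL (hd (κ := κ) p z + n • polar (k := κ) t)) :
    x ^ a * y ^ b * z ∈ LL ((p * n) • polar (k := κ) t) := by
  have hp' : (0 : ℤ) < p := by exact_mod_cast hp
  right
  intro P
  have h3 := (h1.resolve_left hx) P
  have h4 := (h2.resolve_left hy) P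
  rw [P.ord_mul (mul_ne_zero (pow_ne_zero _ hx) (pow_ne_zero _ hy)) hz,
    P.ord_mul (pow_ne_zero _ hx) (pow_ne_zero _ hy), P.ord_pow, P.ord_pow]
  simp only [Finsupp.add_apply, Finsupp.smul_apply, hd_apply, nsmul_eq_mul] at h3 h4 ⊢
  have h5 : (p : ℤ) * (P.ord z / p) ≤ P.ord z := Int.mul_ediv_self_le hp'.ne'
  have ha : (0 : ℤ) ≤ a := by positivity
  have hb : (0 : ℤ) ≤ b := by positivity
  have hab' : (a : ℤ) + b = p := by exact_mod_cast hab
  have h6 := mul_le_mul_of_nonneg_left h3 ha
  have h7 := mul_le_mul_of_nonneg_left h4 hb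
  push_cast
  generalize P.ord z / (p : ℤ) = q at h5 h6 h7
  rw [← hab'] at h5 ⊢
  nlinarith

end

theorem main : P_BZP := by
  intro p hpf κ N _ _ _ _ _ _ t ht s hs
  have hp : 0 < p := hpf.out.pos
  have hp' : (0 : ℤ) < p := by exact_mod_cast hp
  obtain ⟨γ, N0, hR1, hR2⟩ := riemann κ N
  set c0 : ℤ := ddeg (polar (k := κ) (aeval t s)⁻¹) + ddeg (polar (k := κ) t) with hc0
  have hH := ddeg_polar_pos (k := κ) ht
  have hc00 : 0 ≤ c0 := by
    have h1 := ddeg_nonneg (polar_nonneg (k := κ) (aeval t s)⁻¹)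
    omega
  set n : ℕ := (c0 + |γ| + |N0| + 2).toNat with hn
  have hn' : (n : ℤ) = c0 + |γ| + |N0| + 2 := by
    rw [hn, Int.toNat_of_nonneg]
    have := abs_nonneg γ
    have := abs_nonneg N0
    omega
  refine ⟨p * n, ?_⟩
  intro z hz hev
  set E : Place κ N →₀ ℤ := hd (κ := κ) p z + n • polar (k := κ) t with hE
  have hdeg := hd_deg hp ht hs hz hev
  have hEdeg : N0 + 1 ≤ ddeg E ∧ γ + 1 ≤ ddeg E := by
    rw [hE, ddeg_add, ddeg_nsmul]
    have h1 : (n : ℤ) * 1 ≤ n * ddeg (polar (k := κ) t) :=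
      mul_le_mul_of_nonneg_left (by omega) (by positivity)
    have h2 := le_abs_self γ
    have h3 := le_abs_self N0
    have h4 := abs_nonneg γ
    have h5 := abs_nonneg N0
    constructor <;> omega
  have hellE := hR2 E (by omega)
  obtain ⟨x₁, hx₁, hx₁0⟩ := exists_ne_zero_of_ell_pos (D := E) (by omega)
  -- the places to avoid
  have hfin : {P : Place κ N | P.ord (x₁ ^ p * z) ≠ 0}.Finite := finite_support _
  classical
  let Z : Finset (Place κ N) := hfin.toFinset
  let W : Place κ N → Submodule κ (LL E) := fun P =>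
    (LL (E - Finsupp.single P 1)).comap (LL E).subtype
  have hWtop : ∀ P, W P ≠ ⊤ := by
    intro P hP
    have h1 : ell (E - Finsupp.single P 1) = ell E - 1 := by
      rw [hR2 (E - Finsupp.single P 1) (by
        rw [ddeg_sub, ddeg_single, deg_one]; push_cast; omega), hellE, ddeg_sub, ddeg_single, deg_one]
      push_cast; ring
    have h2 : LL E ≤ LL (E - Finsupp.single P 1) := by
      intro f hf
      have : (⟨f, hf⟩ : LL E) ∈ W P := by rw [hP]; trivial
      exact this
    have h3 : ell E ≤ ell (E - Finsupp.single P 1) := by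
      unfold ell
      exact_mod_cast Submodule.finrank_mono h2
    omega
  have hbot : (⊥ : Submodule κ (LL E)) ≠ ⊤ := by
    intro h
    have : (⟨x₁, hx₁⟩ : LL E) ∈ (⊥ : Submodule κ (LL E)) := by rw [h]; trivial
    rw [Submodule.mem_bot] at this
    exact hx₁0 (congrArg Subtype.val this)
  have hkey := Subspace.biUnion_ne_univ_of_top_notMem
    (s := insert (⊥ : Submodule κ (LL E)) (Z.image W)) (by
      intro hmem
      rw [Finset.mem_insert, Finset.mem_image] at hmem
      rcases hmem with h | ⟨P, -, hP⟩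
      · exact hbot h.symm
      · exact hWtop P hP)
  rw [Set.ne_univ_iff_exists_notMem] at hkey
  obtain ⟨⟨x₂, hx₂⟩, hx₂n⟩ := hkey
  simp only [Set.mem_iUnion, not_exists, SetLike.mem_coe] at hx₂n
  have hx₂0 : x₂ ≠ 0 := by
    intro h0
    apply hx₂n ⊥ (Finset.mem_insert_self _ _)
    rw [Submodule.mem_bot]
    exact Subtype.ext h0
  have hx₂W : ∀ P ∈ Z, x₂ ∉ LL (E - Finsupp.single P 1) := by
    intro P hP hmem
    exact hx₂n (W P) (Finset.mem_insert_of_mem (Finset.mem_image_of_mem W hP)) hmem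
  refine ⟨x₁, x₂, hx₁0, hx₂0, ?_, ?_, ?_, ?_⟩
  · have h1 := mem_of hp (add_zero p) hz hx₁0 hx₁0 hx₁ hx₁
    rwa [pow_zero, mul_one] at h1
  · have h1 := mem_of hp (add_zero p) hz hx₂0 hx₂0 hx₂ hx₂
    rwa [pow_zero, mul_one] at h1
  · have h1 := mem_of hp (Nat.sub_add_cancel hp) hz hx₁0 hx₂0 hx₁ hx₂
    rwa [pow_one] at h1
  · rintro P a hPa hsa ⟨h1, h2⟩
    have hPZ : P ∈ Z := hfin.mem_toFinset.2 h1.ne'
    apply hx₂W P hPZ
    right
    intro Q
    have h3 := (hx₂.resolve_left hx₂0) Q
    rw [Finsupp.sub_apply]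
    by_cases hQ : P = Q
    · subst hQ
      rw [Finsupp.single_eq_same]
      have hev' := hev P a hPa hsa
      obtain ⟨r, hr⟩ := hev'
      have hreg := reg_of_pos P hPa
      have hpol : polar (k := κ) t P = 0 := by
        rw [polar_apply]
        have ht0 : t ≠ 0 := by
          rintro rfl
          exact ht isAlgebraic_zero
        have := (P.reg_iff ht0).1 hreg
        exact max_eq_right (by omega)
      rw [P.ord_mul (pow_ne_zero _ hx₂0) hz, P.ord_pow] at h2
      have h5 : E P = P.ord z / (p : ℤ) := by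
        rw [hE, Finsupp.add_apply, Finsupp.smul_apply, hpol, hd_apply]
        simp
      rw [h5, hr, Int.mul_ediv_cancel_left _ hp'.ne']
      rw [hr, ← mul_add] at h2
      have h6 := (mul_pos_iff_of_pos_left hp').1 h2
      omega
    · rw [Finsupp.single_eq_of_ne (by first | exact hQ | exact Ne.symm hQ)]
      omega

end Pool.Agent.Helper56.RL.BZP
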